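import Pool.Agent.H.MP_7e6923_gt.Cech

set_option autoImplicit false

namespace Pool.Agent.Results.MP_7e6923_gt.NotCechComplete

open Pool.Agent.H.MP_7e6923_gt

/-- Let `ω*` be the remainder `βω \ ω` of the Stone-Čech compactification of the discrete space of
natural numbers, and let `Z` be the space of all continuous maps `ω* → ω*` with the compact-open
topology. Then the image of `Z` in its Stone-Čech compactification is not a `G_δ` set, that is,
`Z` is not Čech-complete. -/
theorem result :
    ¬ IsGδ (Set.range (stoneCechUnit :
      C({p : StoneCech ℕ // p ∉ Set.range (stoneCechUnit : ℕ → StoneCech ℕ)},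
        {p : StoneCech ℕ // p ∉ Set.range (stoneCechUnit : ℕ → StoneCech ℕ)}) →
      StoneCech
        C({p : StoneCech ℕ // p ∉ Set.range (stoneCechUnit : ℕ → StoneCech ℕ)},
          {p : StoneCech ℕ // p ∉ Set.range (stoneCechUnit : ℕ → StoneCech ℕ)}))) :=
  not_isGdelta

end Pool.Agent.Results.MP_7e6923_gt.NotCechComplete
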