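import Pool.Agent.H.MP_7e6923_gt.Omega

set_option autoImplicit false

namespace Pool.Agent.Results.MP_7e6923_gt.NotNormal

open Pool.Agent.H.MP_7e6923_gt

/-- Let `ω*` be the remainder `βω \ ω` of the Stone-Čech compactification of the discrete space of
natural numbers. The space of all continuous maps `ω* → ω*` with the compact-open topology
is not normal. -/
theorem result :
    ¬ NormalSpace
      C({p : StoneCech ℕ // p ∉ Set.range (stoneCechUnit : ℕ → StoneCech ℕ)},
        {p : StoneCech ℕ // p ∉ Set.range (stoneCechUnit : ℕ → StoneCech ℕ)}) := by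
  intro hN
  obtain ⟨r, hr⟩ := exists_surjection
  obtain ⟨b, hb, hfree⟩ := exists_free_family
  have hunc : Uncountable (Set ℕ) := by
    rw [← not_countable_iff]
    intro hc
    obtain ⟨f, hf⟩ := exists_injective_nat (Set ℕ)
    exact Function.cantor_injective f hf
  exact not_normal hb hfree (isClosedEmbedding_precomp (S := OmegaStar) r hr).normalSpace

end Pool.Agent.Results.MP_7e6923_gt.NotNormal
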